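import Pool.Agent.Helper64.Rig.Basics

/-!
# Rigid curves in projective space: coprimality of the flex tangents (packet Cop)
-/

namespace Pool.Agent.Helper5.Rig

open MvPolynomial Module
open Pool.Agent.Helper64.Rig

set_option linter.unusedSectionVars false

/-! ## Homogeneous components of products -/

theorem comp_mul {τ : Type} {R : Type} [CommRing R] {P : MvPolynomial τ R} {a : ℕ}
    (hP : P.IsHomogeneous a) (G : MvPolynomial τ R) (n : ℕ) :
    homogeneousComponent (a + n) (P * G) = P * homogeneousComponent n G := by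
  have h1 : ∀ i, homogeneousComponent (a + n) (P * homogeneousComponent i G) =
      if n = i then P * homogeneousComponent i G else 0 := by
    intro i
    rw [homogeneousComponent_of_mem (n := a + i)]
    · by_cases h : n = i
      · rw [if_pos h, if_pos (by rw [h])]
      · rw [if_neg h, if_neg (by omega)]
    · exact hP.mul (homogeneousComponent_isHomogeneous i G)
  conv_lhs => rw [← sum_homogeneousComponent G, Finset.mul_sum, map_sum]
  simp only [h1]
  rw [Finset.sum_ite_eq]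
  split_ifs with h
  · rfl
  · rw [homogeneousComponent_eq_zero, mul_zero]
    rw [Finset.mem_range] at h
    omega

theorem dvd_comp_mul {τ : Type} {R : Type} [CommRing R] {P : MvPolynomial τ R} {a : ℕ}
    (hP : P.IsHomogeneous a) (G : MvPolynomial τ R) (n : ℕ) :
    P ∣ homogeneousComponent n (P * G) := by
  conv_rhs => rw [← sum_homogeneousComponent G, Finset.mul_sum, map_sum]
  refine Finset.dvd_sum fun i _ => ?_
  rw [homogeneousComponent_of_mem (n := a + i)]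
  · split_ifs
    · exact dvd_mul_right _ _
    · exact dvd_zero _
  · exact hP.mul (homogeneousComponent_isHomogeneous i G)

/-! ## The linear forms -/

/-- The linear form of `j`. -/
noncomputable def LP (ζ : ℂ) (j : Jx) : MvPolynomial (Fin 3) ℂ :=
  X (j.1 + 1) + C (ζ ^ (j.2 : ℕ)) * X (j.1 + 2)

theorem LP_hom (ζ : ℂ) (j : Jx) : (LP ζ j).IsHomogeneous 1 := by
  refine (isHomogeneous_X _ _).add ?_
  simpa using (isHomogeneous_C (Fin 3) (ζ ^ (j.2 : ℕ))).mul (isHomogeneous_X ℂ (j.1 + 2))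

theorem FF_hom : FF.IsHomogeneous 5 :=
  IsHomogeneous.sum _ _ _ fun i _ => by simpa using (isHomogeneous_X ℂ i).pow 5

theorem aeval_LP {K : Type} [Field K] [Algebra ℂ K] (ζ : ℂ) (x : Jx → K) (j : Jx) :
    aeval (pr x) (LP ζ j) = el ζ x j := by
  simp only [LP, el, map_add, map_mul, aeval_X, aeval_C]

/-- The parametrisation of the line `L = 0`. -/
noncomputable def sub (ζ : ℂ) (j : Jx) : MvPolynomial (Fin 3) ℂ →ₐ[ℂ] MvPolynomial (Fin 2) ℂ :=
  aeval fun m => if m = j.1 then X 0 else if m = j.1 + 1 then -(C (ζ ^ (j.2 : ℕ)) * X 1) else X 1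

/-- The projection to the line. -/
noncomputable def bak (j : Jx) : MvPolynomial (Fin 2) ℂ →ₐ[ℂ] MvPolynomial (Fin 3) ℂ :=
  aeval ![X j.1, X (j.1 + 2)]

theorem dvd_sub_bak (ζ : ℂ) (j : Jx) (G : MvPolynomial (Fin 3) ℂ) :
    LP ζ j ∣ G - bak j (sub ζ j G) := by
  have h : ∀ i : Fin 3, ∀ m : Fin 3, m = i ∨ m = i + 1 ∨ m = i + 2 := by decide
  have h1 : ∀ i : Fin 3, i + 1 ≠ i := by decide
  have h2 : ∀ i : Fin 3, i + 2 ≠ i := by decide
  have h3 : ∀ i : Fin 3, i + 2 ≠ i + 1 := by decide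
  rw [← Ideal.mem_span_singleton, ← Ideal.Quotient.eq]
  have key : (Ideal.Quotient.mkₐ ℂ (Ideal.span {LP ζ j})) =
      ((Ideal.Quotient.mkₐ ℂ (Ideal.span {LP ζ j})).comp (bak j)).comp (sub ζ j) := by
    apply MvPolynomial.algHom_ext
    intro m
    simp only [AlgHom.comp_apply, Ideal.Quotient.mkₐ_eq_mk]
    rw [Ideal.Quotient.eq, Ideal.mem_span_singleton]
    rcases h j.1 m with rfl | rfl | rfl
    · simp [sub, bak]
    · refine ⟨1, ?_⟩
      simp [sub, bak, h1, LP]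
    · simp [sub, bak, h2, h3]
  exact congrArg (fun f => f G) key

theorem FF_eq {ζ : ℂ} (hζ : IsPrimitiveRoot ζ 5) (j : Jx) :
    ∃ N : MvPolynomial (Fin 3) ℂ, FF = X j.1 ^ 5 + LP ζ j * N := by
  have h1 : ∀ i : Fin 3, (FF : MvPolynomial (Fin 3) ℂ) = X i ^ 5 + (X (i + 1) ^ 5 + X (i + 2) ^ 5) := by
    intro i
    fin_cases i
    · simp [FF, Fin.sum_univ_three]
      ring
    · simp only [FF, Fin.sum_univ_three]
      have e1 : (⟨1, by norm_num⟩ : Fin 3) = 1 := rfl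
      have e2 : ((⟨1, by norm_num⟩ : Fin 3) + 1) = 2 := rfl
      have e3 : ((⟨1, by norm_num⟩ : Fin 3) + 2) = 0 := rfl
      rw [e2, e3, e1]
      ring
    · simp only [FF, Fin.sum_univ_three]
      have e1 : (⟨2, by norm_num⟩ : Fin 3) = 2 := rfl
      have e2 : ((⟨2, by norm_num⟩ : Fin 3) + 1) = 0 := rfl
      have e3 : ((⟨2, by norm_num⟩ : Fin 3) + 2) = 1 := rfl
      rw [e2, e3, e1]
      ring
  have h2 := prod_add_zeta (R := MvPolynomial (Fin 3) ℂ) hζ (X (j.1 + 1)) (X (j.1 + 2))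
  refine ⟨∏ k ∈ Finset.univ.erase j.2, (X (j.1 + 1) + algebraMap ℂ _ (ζ ^ (k : ℕ)) * X (j.1 + 2)), ?_⟩
  rw [h1 j.1, ← h2, ← Finset.mul_prod_erase Finset.univ _ (Finset.mem_univ j.2)]
  simp only [LP, MvPolynomial.algebraMap_eq]

theorem sub_FF {ζ : ℂ} (hζ : IsPrimitiveRoot ζ 5) (j : Jx) : sub ζ j FF = X 0 ^ 5 := by
  obtain ⟨N, hN⟩ := FF_eq hζ j
  have h1 : ∀ i : Fin 3, i + 1 ≠ i := by decide
  have h2 : ∀ i : Fin 3, i + 2 ≠ i := by decide
  have h3 : ∀ i : Fin 3, i + 2 ≠ i + 1 := by decide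
  rw [hN, map_add, map_mul, map_pow]
  simp [sub, LP, h1, h2, h3]

theorem sub_LP_self (ζ : ℂ) (j : Jx) : sub ζ j (LP ζ j) = 0 := by
  have h1 : ∀ i : Fin 3, i + 1 ≠ i := by decide
  have h2 : ∀ i : Fin 3, i + 2 ≠ i := by decide
  have h3 : ∀ i : Fin 3, i + 2 ≠ i + 1 := by decide
  simp [sub, LP, h1, h2, h3]

/-- The value of the other form at the point `T = 0` of the line. -/
theorem eval_sub_LP {ζ : ℂ} (hζ : IsPrimitiveRoot ζ 5) {j j' : Jx} (h : j ≠ j') :
    eval ![0, 1] (sub ζ j (LP ζ j')) ≠ 0 := by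
  have hz : ζ ≠ 0 := hζ.ne_zero (by norm_num)
  have hI : ∀ i i' : Fin 3, i' = i ∨ i' = i + 1 ∨ i' = i + 2 := by decide
  have h1 : ∀ i : Fin 3, i + 1 ≠ i := by decide
  have h2 : ∀ i : Fin 3, i + 2 ≠ i := by decide
  have h3 : ∀ i : Fin 3, i + 2 ≠ i + 1 := by decide
  obtain ⟨i, k⟩ := j
  obtain ⟨i', k'⟩ := j'
  rcases hI i i' with rfl | rfl | rfl
  · have hk : k ≠ k' := fun e => h (by rw [e])
    simp only [sub, LP, map_add, map_mul, aeval_X, aeval_C, h1, h2, h3, if_true, if_false]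
    simp only [map_neg, map_mul, eval_X, eval_C, MvPolynomial.algebraMap_eq]
    simp only [Matrix.cons_val_one, Matrix.cons_val_fin_one, mul_one]
    intro h0
    have : ζ ^ (k : ℕ) = ζ ^ (k' : ℕ) := by linear_combination -h0
    exact hk (Fin.ext (hζ.pow_inj k.2 k'.2 this))
  · have e1 : ∀ i : Fin 3, i + 1 + 1 = i + 2 := by decide
    have e2 : ∀ i : Fin 3, i + 1 + 2 = i := by decide
    simp only [sub, LP, e1, e2, map_add, map_mul, aeval_X, aeval_C]
    simp only [if_neg (h2 i), if_neg (h3 i), if_true]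
    simp
  · have e1 : ∀ i : Fin 3, i + 2 + 1 = i := by decide
    have e2 : ∀ i : Fin 3, i + 2 + 2 = i + 1 := by decide
    simp only [sub, LP, e1, e2, map_add, map_mul, aeval_X, aeval_C]
    simp only [if_neg (h1 i), if_true]
    simp [hz]

/-- The key divisibility. -/
theorem key_poly {ζ : ℂ} (hζ : IsPrimitiveRoot ζ 5) {j j' : Jx} (h : j ≠ j')
    {Ga Gb : MvPolynomial (Fin 3) ℂ} {k k' : ℕ}
    (hd : FF ∣ LP ζ j' ^ k' * Ga - LP ζ j ^ (k + 1) * Gb) :
    ∃ G M : MvPolynomial (Fin 3) ℂ, Ga = LP ζ j * G + FF * M := by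
  obtain ⟨M, hM⟩ := hd
  have h1 := congrArg (sub ζ j) hM
  rw [map_sub, map_mul, map_mul, map_mul, map_pow, map_pow, sub_LP_self, sub_FF hζ] at h1
  rw [zero_pow (Nat.succ_ne_zero k), zero_mul, sub_zero] at h1
  have hp : Prime (X 0 : MvPolynomial (Fin 2) ℂ) := X_prime
  have h2 : ¬ (X 0 : MvPolynomial (Fin 2) ℂ) ∣ sub ζ j (LP ζ j') ^ k' := by
    intro hdv
    have h3 := hp.dvd_of_dvd_pow hdv
    obtain ⟨Q, hQ⟩ := h3
    have h4 := congrArg (eval ![0, 1]) hQ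
    rw [map_mul, eval_X] at h4
    simp only [Matrix.cons_val_zero, zero_mul] at h4
    exact eval_sub_LP hζ h h4
  have h3 : (X 0 : MvPolynomial (Fin 2) ℂ) ^ 5 ∣ sub ζ j Ga :=
    hp.pow_dvd_of_dvd_mul_left 5 h2 ⟨_, h1⟩
  obtain ⟨M', hM'⟩ := h3
  obtain ⟨N, hN⟩ := FF_eq hζ j
  obtain ⟨G₁, hG₁⟩ := dvd_sub_bak ζ j Ga
  rw [hM', map_mul, map_pow] at hG₁
  have h5 : bak j (X 0) = X j.1 := by simp [bak]
  rw [h5] at hG₁
  refine ⟨G₁ - N * bak j M', bak j M', ?_⟩
  rw [hN]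
  linear_combination hG₁

theorem key_AA {K : Type} [Field K] [Algebra ℂ K] {ζ : ℂ} {x : Jx → K} (h : Cov ζ x)
    (hKer : ∀ G : MvPolynomial (Fin 3) ℂ, aeval (pr x) G = 0 → FF ∣ G)
    {j j' : Jx} (hj : j ≠ j') {a b : K} {n r : ℕ} {k k' : ℕ} (ha : a ∈ AA x (n + 1))
    (hb : b ∈ AA x r) (hab : el ζ x j' ^ k' * a = el ζ x j ^ (k + 1) * b) :
    ∃ a' ∈ AA x n, a = el ζ x j * a' := by
  obtain ⟨Ga, hGa, rfl⟩ := mem_AA.1 ha
  obtain ⟨Gb, hGb, rfl⟩ := mem_AA.1 hb
  have h1 : FF ∣ LP ζ j' ^ k' * Ga - LP ζ j ^ (k + 1) * Gb := by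
    apply hKer
    rw [map_sub, map_mul, map_mul, map_pow, map_pow, aeval_LP, aeval_LP, hab, sub_self]
  obtain ⟨G, M, hGM⟩ := key_poly h.prim hj h1
  refine ⟨aeval (pr x) (homogeneousComponent n G),
    mem_AA.2 ⟨_, homogeneousComponent_isHomogeneous _ _, rfl⟩, ?_⟩
  have h2 := congrArg (homogeneousComponent (n + 1)) hGM
  rw [homogeneousComponent_of_mem (n := n + 1) hGa, if_pos rfl, map_add, add_comm n 1,
    comp_mul (LP_hom ζ j)] at h2
  obtain ⟨M', hM'⟩ := dvd_comp_mul FF_hom M (1 + n)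
  rw [hM'] at h2
  rw [h2, map_add, map_mul, map_mul, aeval_FF h, zero_mul, add_zero, aeval_LP]

theorem pf_Cop (hKer : StmtKer) : StmtCop := by
  intro K _ _ ζ x h j j' hj g q k
  induction k with
  | zero =>
    intro k' h1 _
    simpa using h1
  | succ k ih =>
    intro k' h1 h2
    apply ih k' _ h2
    obtain ⟨a', ha', he⟩ := key_AA (k := k) (k' := k') h (hKer K ζ x h).1 hj (n := q + k)
      (a := el ζ x j ^ (k + 1) * g) h1 h2 (by ring)
    have h3 : el ζ x j ^ k * g = a' := by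
      apply mul_left_cancel₀ (el_ne h j)
      rw [← he]
      ring
    rw [h3]
    exact ha'

end Pool.Agent.Helper5.Rig
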